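import Pool.Agent.Helper75_LAT.FPV

/-!
# Binary numbers in the calculus `FP`, II: normalization and comparison
-/

set_option autoImplicit false

namespace Pool.Agent.LATM

open Turing Computability Pool.Agent.UT.Num Pool.Agent.H2XG Pool.Agent.PAR
open Pool.Agent.Helper53_CookLevin (size)

variable {m : ℕ}

/-! ### Binary words -/

theorem nval_nil : nval [] = 0 := by simp [nval]

theorem nval_append (w : Word) (b : Bool) :
    nval (w ++ [b]) = nval w + b.toNat * 2 ^ w.length := by
  unfold nval
  rw [List.length_append, List.length_singleton, Finset.sum_range_succ]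
  congr 1
  · refine Finset.sum_congr rfl fun t ht => ?_
    rw [Finset.mem_range] at ht
    rw [List.getD_append _ _ _ _ ht]
  · rw [List.getD_append_right _ _ _ _ le_rfl, Nat.sub_self]
    rfl

theorem nval_cons (b : Bool) (w : Word) : nval (b :: w) = b.toNat + 2 * nval w := by
  unfold nval
  rw [List.length_cons, Finset.sum_range_succ', Finset.mul_sum]
  simp only [List.getD_cons_succ, List.getD_cons_zero, pow_zero, mul_one, pow_succ]
  rw [add_comm]
  congr 1
  exact Finset.sum_congr rfl fun _ _ => by ring

theorem nval_lt (w : Word) : nval w < 2 ^ w.length := by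
  induction w with
  | nil => simp [nval_nil]
  | cons b w ih =>
    rw [nval_cons, List.length_cons, pow_succ]
    have : b.toNat ≤ 1 := by cases b <;> simp
    omega

theorem testBit_nval (w : Word) (i : ℕ) : (nval w).testBit i = w.getD i false := by
  induction w generalizing i with
  | nil => simp [nval_nil]
  | cons b w ih =>
    rw [nval_cons]
    rcases i with _ | i
    · rw [Nat.testBit_zero, List.getD_cons_zero]
      cases b
      · simp
      · simp
    · rw [Nat.testBit_succ, List.getD_cons_succ, ← ih]
      congr 1
      cases b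
      · simp
      · simp
        omega

theorem getD_of_le (w : Word) {i : ℕ} (h : w.length ≤ i) : w.getD i false = false :=
  List.getD_eq_default _ _ h

/-- comparison of binary numbers -/
theorem nval_lt_iff (a b : Word) : nval a < nval b ↔
    ∃ i < a.length + b.length, (!a.getD i false && b.getD i false &&
      decide (∀ j < a.length + b.length, (!decide (i < j) ||
        decide (a.getD j false = b.getD j false)) = true)) = true := by
  constructor
  · intro h
    have hne : nval a ≠ nval b := h.ne
    obtain ⟨i, hi⟩ : ∃ i, a.getD i false ≠ b.getD i false := by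
      by_contra hcon
      push Not at hcon
      refine hne (Nat.eq_of_testBit_eq fun i => ?_)
      rw [testBit_nval, testBit_nval, hcon]
    have hlt : ∀ i, a.getD i false ≠ b.getD i false → i < a.length + b.length := by
      intro i hi
      by_contra hcon
      rw [getD_of_le a (by omega), getD_of_le b (by omega)] at hi
      exact hi rfl
    obtain ⟨i, hi1, hi2⟩ : ∃ i, a.getD i false ≠ b.getD i false ∧
        ∀ j, i < j → a.getD j false = b.getD j false := by
      classical
      have hne' : ((Finset.range (a.length + b.length)).filter fun i =>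
          a.getD i false ≠ b.getD i false).Nonempty :=
        ⟨i, by rw [Finset.mem_filter, Finset.mem_range]; exact ⟨hlt i hi, hi⟩⟩
      refine ⟨_, (Finset.mem_filter.1 (Finset.max'_mem _ hne')).2, fun j hj => ?_⟩
      by_contra hcon
      have := Finset.le_max' ((Finset.range (a.length + b.length)).filter fun i =>
          a.getD i false ≠ b.getD i false) j (by
        rw [Finset.mem_filter, Finset.mem_range]; exact ⟨hlt j hcon, hcon⟩)
      omega
    refine ⟨i, hlt i hi1, ?_⟩
    rcases ha : a.getD i false with _ | _
    · rw [ha] at hi1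
      rcases hb : b.getD i false with _ | _
      · rw [hb] at hi1
        exact absurd rfl hi1
      · simp only [Bool.not_false, Bool.true_and, decide_eq_true_eq]
        intro j _
        by_cases hij : i < j
        · rw [hi2 j hij]
          simp
        · simp [hij]
    · exfalso
      rw [ha] at hi1
      have hb : b.getD i false = false := by
        cases hb : b.getD i false
        · rfl
        · rw [hb] at hi1
          exact absurd rfl hi1
      have := Nat.lt_of_testBit (n := nval b) (m := nval a) i (by rw [testBit_nval, hb])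
        (by rw [testBit_nval, ha]) (fun j hj => by rw [testBit_nval, testBit_nval, hi2 j hj])
      omega
  · rintro ⟨i, _, h⟩
    simp only [Bool.and_eq_true, Bool.not_eq_true', decide_eq_true_eq] at h
    obtain ⟨⟨h1, h2⟩, h3⟩ := h
    refine Nat.lt_of_testBit i (by rw [testBit_nval, h1]) (by rw [testBit_nval, h2]) ?_
    intro j hj
    rw [testBit_nval, testBit_nval]
    by_cases hj' : j < a.length + b.length
    · have := h3 j hj'
      simpa [hj] using this
    · rw [getD_of_le a (by omega), getD_of_le b (by omega)]

theorem FPB.ltW' {A B : (Fin m → List K) → Word} (hA : FPW m A) (hB : FPW m B) :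
    FPB m (fun ρ => decide (nval (A ρ) < nval (B ρ))) := by
  have h1 : FPB (m + 1) (fun σ => decide (∀ j < (A fun i => σ i.succ).length +
      (B fun i => σ i.succ).length, (!decide ((σ 0).length < j) ||
        decide ((A fun i => σ i.succ).getD j false = (B fun i => σ i.succ).getD j false))
          = true)) := by
    refine FPB.all (m := m + 1) (hA.weak.len.add hB.weak.len) (b := fun j σ =>
      !decide ((σ 0).length < j) ||
        decide ((A fun i => σ i.succ).getD j false = (B fun i => σ i.succ).getD j false)) ?_
    refine (FPB.ltN FPN.v1 FPN.v0).not.or ?_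
    have h2 := FPW.getD hA.weak.weak (e := fun σ : Fin (m + 2) → List K => (σ 0).length) FPN.v0
    have h3 := FPW.getD hB.weak.weak (e := fun σ : Fin (m + 2) → List K => (σ 0).length) FPN.v0
    refine ((h2.and h3).or (h2.not.and h3.not)).congr fun σ => ?_
    beta_reduce
    cases (A fun i => σ i.succ.succ).getD (σ 0).length false <;>
      cases (B fun i => σ i.succ.succ).getD (σ 0).length false <;> rfl
  refine (FPB.exists (hA.len.add hB.len) (b := fun i ρ => !(A ρ).getD i false &&
    (B ρ).getD i false && decide (∀ j < (A ρ).length + (B ρ).length, (!decide (i < j) ||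
      decide ((A ρ).getD j false = (B ρ).getD j false)) = true)) ?_).congr fun ρ => ?_
  · exact ((FPW.getD hA.weak FPN.v0).not.and (FPW.getD hB.weak FPN.v0)).and h1
  · rw [Bool.eq_iff_iff, decide_eq_true_iff, decide_eq_true_iff]
    exact nval_lt_iff _ _

/-! ### Normalization -/

/-- carries and digits: the digits of `∑ s < t, c s * 2 ^ s` below `t` and the carry -/
def nrm (c : ℕ → ℕ) : ℕ → Word × ℕ
  | 0 => ([], 0)
  | t + 1 => ((nrm c t).1 ++ [decide (((nrm c t).2 + c t) % 2 = 1)], ((nrm c t).2 + c t) / 2)

theorem length_nrm (c : ℕ → ℕ) (t : ℕ) : (nrm c t).1.length = t := by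
  induction t with
  | zero => rfl
  | succ t ih => simp [nrm, ih]

theorem nval_nrm (c : ℕ → ℕ) (t : ℕ) :
    nval (nrm c t).1 + (nrm c t).2 * 2 ^ t = ∑ s ∈ Finset.range t, c s * 2 ^ s := by
  induction t with
  | zero => simp [nrm, nval_nil]
  | succ t ih =>
    rw [Finset.sum_range_succ, ← ih]
    simp only [nrm]
    rw [nval_append, length_nrm]
    have h1 : (decide (((nrm c t).2 + c t) % 2 = 1)).toNat = ((nrm c t).2 + c t) % 2 := by
      rcases Nat.mod_two_eq_zero_or_one ((nrm c t).2 + c t) with h | h <;> simp [h]
    rw [h1, pow_succ]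
    have h2 := Nat.mod_add_div ((nrm c t).2 + c t) 2
    have h3 : ((nrm c t).2 + c t) % 2 * 2 ^ t + ((nrm c t).2 + c t) / 2 * (2 ^ t * 2) =
        ((nrm c t).2 + c t) * 2 ^ t := by
      calc _ = (((nrm c t).2 + c t) % 2 + 2 * (((nrm c t).2 + c t) / 2)) * 2 ^ t := by ring
        _ = _ := by rw [h2]
    calc _ = nval (nrm c t).1 + (((nrm c t).2 + c t) % 2 * 2 ^ t +
          ((nrm c t).2 + c t) / 2 * (2 ^ t * 2)) := by ring
      _ = _ := by rw [h3]; ring

/-- the carry vanishes in the end -/
theorem nrm_snd (c : ℕ → ℕ) (W S : ℕ) (hc : ∀ t, W ≤ t → c t = 0)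
    (hS : ∑ t ∈ Finset.range W, c t ≤ S) : (nrm c (W + S)).2 = 0 := by
  have h1 : ∀ t, (nrm c t).2 ≤ ∑ s ∈ Finset.range t, c s := by
    intro t
    induction t with
    | zero => simp [nrm]
    | succ t ih =>
      rw [Finset.sum_range_succ]
      simp only [nrm]
      omega
  have h2 : ∀ k, (nrm c (W + k)).2 * 2 ^ k ≤ (nrm c W).2 := by
    intro k
    induction k with
    | zero => simp
    | succ k ih =>
      rw [← Nat.add_assoc]
      simp only [nrm]
      rw [hc (W + k) (by omega), Nat.add_zero, pow_succ]
      have h3 := Nat.div_mul_le_self (nrm c (W + k)).2 2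
      calc _ = (nrm c (W + k)).2 / 2 * 2 * 2 ^ k := by ring
        _ ≤ (nrm c (W + k)).2 * 2 ^ k := Nat.mul_le_mul_right _ h3
        _ ≤ _ := ih
  by_contra hcon
  have h3 := h2 S
  have h4 := (h1 W).trans hS
  have h5 : S < 2 ^ S := Nat.lt_two_pow_self
  have h6 : 1 * 2 ^ S ≤ (nrm c (W + S)).2 * 2 ^ S :=
    Nat.mul_le_mul_right _ (Nat.one_le_iff_ne_zero.2 hcon)
  omega

/-- the bits in a word of letters -/
def bitsK (w : List K) : List K := w.flatMap fun c => match c with
  | .a b => [.a b]
  | _ => []

/-- the letters `z` in a word of letters -/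
def zK (w : List K) : List K := w.flatMap fun c => match c with
  | .z => [.z]
  | _ => []

/-- one step of the normalization -/
def stp (c : K) (w : List K) : List K := match c with
  | .z => w ++ [.z]
  | .s => bitsK w ++ [K.a (decide ((zK w).length % 2 = 1))] ++
      List.replicate ((zK w).length / 2) K.z
  | _ => w

theorem length_bits_z (w : List K) : (bitsK w).length + (zK w).length ≤ w.length := by
  induction w with
  | nil => simp [bitsK, zK]
  | cons c w ih =>
    unfold bitsK zK at ih ⊢
    rcases c with _ | _ | b | ⟨i, b⟩ <;>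
      simp only [List.flatMap_cons, List.length_append, List.length_cons, List.length_nil]
        at ih ⊢ <;> omega

theorem bitsK_mk (w : Word) (k : ℕ) : bitsK (w.map K.a ++ List.replicate k K.z) = w.map K.a := by
  unfold bitsK
  rw [List.flatMap_append, List.flatMap_map]
  have h1 : (List.replicate k K.z).flatMap (fun c => match c with
      | .a b => [.a b]
      | _ => ([] : List K)) = [] := by
    rw [List.flatMap_eq_nil_iff]
    intro c hc
    rw [List.mem_replicate] at hc
    rw [hc.2]
  rw [h1, List.append_nil, ← List.map_eq_flatMap]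

theorem zK_mk (w : Word) (k : ℕ) : (zK (w.map K.a ++ List.replicate k K.z)).length = k := by
  unfold zK
  rw [List.flatMap_append, List.flatMap_map, List.length_append]
  have h1 : (w.flatMap fun _ => ([] : List K)) = [] := by
    rw [List.flatMap_eq_nil_iff]
    exact fun _ _ => rfl
  have h2 : (List.replicate k K.z).flatMap (fun c => match c with
      | .z => [.z]
      | _ => ([] : List K)) = List.replicate k K.z := by
    induction k with
    | zero => rfl
    | succ k ih => rw [List.replicate_succ, List.flatMap_cons, ih]; rfl
  rw [h2, List.length_replicate]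
  change (w.flatMap fun _ => ([] : List K)).length + k = k
  rw [h1, List.length_nil, Nat.zero_add]

/-- the word of the digits in unary -/
def dgW (c : ℕ → ℕ) (T : ℕ) : List K :=
  (List.range T).flatMap fun t => List.replicate (c t) K.z ++ [K.s]

theorem fold_z (w : Word) (k j : ℕ) : foldS (fun c _ w => stp c w)
    (w.map K.a ++ List.replicate k K.z) [] (List.replicate j K.z) =
      w.map K.a ++ List.replicate (k + j) K.z := by
  induction j with
  | zero => rfl
  | succ j ih =>
    rw [List.replicate_succ', foldS_append, ih]
    show (w.map K.a ++ List.replicate (k + j) K.z) ++ [K.z] = _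
    rw [List.append_assoc, ← List.replicate_succ', Nat.add_assoc]

theorem fold_step (w : Word) (k j : ℕ) : foldS (fun c _ w => stp c w)
    (w.map K.a ++ List.replicate k K.z) [] (List.replicate j K.z ++ [K.s]) =
      (w ++ [decide ((k + j) % 2 = 1)]).map K.a ++ List.replicate ((k + j) / 2) K.z := by
  rw [foldS_append, fold_z]
  show bitsK _ ++ [K.a (decide ((zK _).length % 2 = 1))] ++
      List.replicate ((zK _).length / 2) K.z = _
  rw [bitsK_mk, zK_mk, List.map_append]
  rfl

theorem foldS_const (f : K → List K → List K) (g : List K) (p q : List K) (d : List K) :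
    foldS (fun c _ w => f c w) g p d = foldS (fun c _ w => f c w) g q d := by
  induction d using List.reverseRecOn with
  | nil => rfl
  | append_singleton d c ih =>
    rw [foldS_append, foldS_append, ih]
    rfl

theorem foldS_const_append (f : K → List K → List K) (g : List K) (p : List K) (d d' : List K) :
    foldS (fun c _ w => f c w) g p (d ++ d') =
      foldS (fun c _ w => f c w) (foldS (fun c _ w => f c w) g p d) [] d' := by
  rw [foldS_append]
  exact foldS_const f _ _ _ _

theorem fold_dgW (c : ℕ → ℕ) (T : ℕ) : foldS (fun c _ w => stp c w) [] [] (dgW c T) =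
    (nrm c T).1.map K.a ++ List.replicate (nrm c T).2 K.z := by
  induction T with
  | zero => rfl
  | succ T ih =>
    have e : dgW c (T + 1) = dgW c T ++ (List.replicate (c T) K.z ++ [K.s]) := by
      unfold dgW
      rw [List.range_succ, List.flatMap_append, List.flatMap_singleton]
    rw [e, foldS_const_append, ih, fold_step]
    rfl

theorem length_fold (d : List K) :
    (foldS (fun c _ w => stp c w) [] [] d).length ≤ d.length := by
  induction d using List.reverseRecOn with
  | nil => simp [foldS]
  | append_singleton d c ih =>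
    rw [foldS_append, List.length_append, List.length_singleton]
    set w := foldS (fun c _ w => stp c w) [] [] d
    show (stp c w).length ≤ _
    rcases c with _ | _ | b | ⟨i, b⟩
    · simp only [stp, List.length_append, List.length_singleton]
      omega
    · simp only [stp, List.length_append, List.length_singleton, List.length_replicate]
      have := length_bits_z w
      omega
    · simp only [stp]
      omega
    · simp only [stp]
      omega

/-- bits as Booleans -/
def bitsB (w : List K) : Word := w.flatMap fun c => match c with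
  | .a b => [b]
  | _ => []

theorem bitsB_mk (w : Word) : bitsB (w.map K.a) = w := by
  unfold bitsB
  rw [List.flatMap_map]
  exact List.flatMap_singleton' w

theorem FPW.bitsB {A : (Fin m → List K) → List K} (hA : FP m A) :
    FPW m (fun ρ => bitsB (A ρ)) :=
  FP.congr (FP.flatMap hA (F := fun c _ => match c with
      | .a b => [K.a b]
      | _ => []) (fun c => FP.const _)) fun ρ => by
    unfold LATM.bitsB
    rw [List.map_flatMap]
    refine List.flatMap_congr fun c _ => ?_
    rcases c with _ | _ | b | ⟨j, b⟩ <;> rfl

/-- **Normalization**: every number of the calculus has a binary word. -/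
theorem FPV.word {e : (Fin m → List K) → ℕ} (h : FPV m e) :
    ∃ A : (Fin m → List K) → Word, FPW m A ∧ ∀ ρ, LATM.nval (A ρ) = e ρ := by
  obtain ⟨W, c, hW, hc, h⟩ := h
  let c' : (Fin m → List K) → ℕ → ℕ := fun ρ t => if decide (t < W ρ) then c t ρ else 0
  let S : (Fin m → List K) → ℕ := fun ρ => ∑ t ∈ Finset.range (W ρ), c t ρ
  have hS : FPN m S := FPN.sum hW (f := c) hc
  have hc' : FPN (m + 1) (fun σ => c' (fun i => σ i.succ) (σ 0).length) :=
    FPN.ite (FPB.ltN FPN.v0 hW.weak) hc (FPN.const 0)
  have hD : FP m (fun ρ => dgW (c' ρ) (W ρ + S ρ)) :=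
    FP.rangeFlatMap (hW.add hS) (F := fun t ρ => List.replicate (c' ρ t) K.z ++ [K.s])
      (FP.append (FP.rep hc' K.z) (FP.const [K.s]))
  obtain ⟨b, hb⟩ := hD.bound
  have hF : ∀ c : K, FP (m + 2) (fun σ : Fin (m + 2) → List K => stp c (σ 0)) := by
    have hz : FPN (m + 2) (fun σ : Fin (m + 2) → List K => (zK (σ 0)).length) :=
      FPN.len (A := fun σ : Fin (m + 2) → List K => zK (σ 0))
        (FP.flatMap (FP.var 0) (F := fun c _ => match c with
        | K.z => [K.z]
        | _ => []) (fun c => FP.const _))
    have hbit : FP (m + 2) (fun σ : Fin (m + 2) → List K => bitsK (σ 0)) :=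
      FP.flatMap (FP.var 0) (F := fun c _ => match c with
        | K.a b => [K.a b]
        | _ => []) (fun c => FP.const _)
    intro c
    rcases c with _ | _ | b | ⟨i, b⟩
    · exact (FP.var 0).append (FP.const [K.z])
    · refine (hbit.append ?_).append (FP.rep (hz.div (FPN.const 2)) K.z)
      exact FPB.bool (FPB.eqN (hz.mod (FPN.const 2)) (FPN.const 1))
    · exact FP.var 0
    · exact FP.var 0
  have h1 := hD.foldOver (F := fun c σ => stp c (σ 0)) hF (FP.const []) b (by
    intro ρ d l hd
    have h1 := hb ρ
    rw [← hd, List.length_append] at h1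
    have h2 := length_fold d
    simp only [Matrix.cons_val_zero]
    omega)
  refine ⟨_, FPW.bitsB h1, fun ρ => ?_⟩
  simp only [Matrix.cons_val_zero]
  rw [fold_dgW]
  have h2 : (nrm (c' ρ) (W ρ + S ρ)).2 = 0 := by
    refine nrm_snd (c' ρ) (W ρ) (S ρ) (fun t ht => ?_) ?_
    · simp only [c', decide_eq_true_eq]
      rw [if_neg (by omega)]
    · refine le_of_eq (Finset.sum_congr rfl fun t ht => ?_)
      rw [Finset.mem_range] at ht
      simp [c', ht]
  rw [h2, List.replicate_zero, List.append_nil, bitsB_mk]
  have h3 := nval_nrm (c' ρ) (W ρ + S ρ)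
  rw [h2, Nat.zero_mul, Nat.add_zero] at h3
  rw [h3, h]
  simp only [c', decide_eq_true_eq]
  exact sum_cut_mul (by omega) (fun t => c t ρ)

theorem FPB.ltV {e e' : (Fin m → List K) → ℕ} (h : FPV m e) (h' : FPV m e') :
    FPB m (fun ρ => decide (e ρ < e' ρ)) := by
  obtain ⟨A, hA, eA⟩ := h.word
  obtain ⟨B, hB, eB⟩ := h'.word
  exact (FPB.ltW' hA hB).congr fun ρ => by rw [eA, eB]

theorem FPB.leV {e e' : (Fin m → List K) → ℕ} (h : FPV m e) (h' : FPV m e') :
    FPB m (fun ρ => decide (e ρ ≤ e' ρ)) :=
  (FPB.ltV h' h).not.congr fun ρ => by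
    rw [Bool.eq_iff_iff]
    simp

theorem FPB.eqV {e e' : (Fin m → List K) → ℕ} (h : FPV m e) (h' : FPV m e') :
    FPB m (fun ρ => decide (e ρ = e' ρ)) :=
  ((FPB.leV h h').and (FPB.leV h' h)).congr fun ρ => by
    rw [Bool.eq_iff_iff]
    simp only [Bool.and_eq_true, decide_eq_true_eq]
    omega

theorem FPB.testBitV {e : (Fin m → List K) → ℕ} (h : FPV m e) {i : (Fin m → List K) → ℕ}
    (hi : FPN m i) : FPB m (fun ρ => (e ρ).testBit (i ρ)) := by
  obtain ⟨A, hA, eA⟩ := h.word
  exact (FPW.getD hA hi).congr fun ρ => by rw [← eA, testBit_nval]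

end Pool.Agent.LATM
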