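import Pool.Agent.Helper75_LAT.Norm

/-!
# Binary numbers in the calculus `FP`, III: integers
-/

set_option autoImplicit false

namespace Pool.Agent.LATM

open Turing Computability Pool.Agent.UT.Num Pool.Agent.H2XG Pool.Agent.PAR
open Pool.Agent.Helper53_CookLevin (size)

variable {m : ℕ}

/-- integers: differences of two numbers of the calculus -/
def FPI (m : ℕ) (f : (Fin m → List K) → ℤ) : Prop :=
  ∃ p q : (Fin m → List K) → ℕ, FPV m p ∧ FPV m q ∧ ∀ ρ, f ρ = (p ρ : ℤ) - (q ρ : ℤ)

theorem FPI.congr {f g : (Fin m → List K) → ℤ} (h : FPI m f) (h' : ∀ ρ, g ρ = f ρ) :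
    FPI m g := by
  have : g = f := funext h'
  rw [this]
  exact h

theorem FPI.weak {f : (Fin m → List K) → ℤ} (h : FPI m f) :
    FPI (m + 1) (fun σ => f (fun i => σ i.succ)) := by
  obtain ⟨p, q, hp, hq, h⟩ := h
  exact ⟨_, _, hp.weak, hq.weak, fun ρ => h _⟩

/-- natural numbers of the calculus -/
theorem FPI.ofV {e : (Fin m → List K) → ℕ} (h : FPV m e) : FPI m (fun ρ => (e ρ : ℤ)) :=
  ⟨e, fun _ => 0, h, FPV.const 0, fun ρ => by simp⟩

/-- numbers in unary -/
theorem FPI.ofN {e : (Fin m → List K) → ℕ} (h : FPN m e) : FPI m (fun ρ => (e ρ : ℤ)) :=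
  FPI.ofV (FPV.ofN h)

theorem FPI.const (z : ℤ) : FPI m (fun _ => z) :=
  ⟨fun _ => z.toNat, fun _ => (-z).toNat, FPV.const _, FPV.const _, fun ρ => by
    rcases le_total 0 z with h | h
    · rw [Int.toNat_of_nonneg h, Int.toNat_of_nonpos (by omega)]
      simp
    · rw [Int.toNat_of_nonpos h, Int.toNat_of_nonneg (by omega)]
      simp⟩

theorem FPI.add {f g : (Fin m → List K) → ℤ} (hf : FPI m f) (hg : FPI m g) :
    FPI m (fun ρ => f ρ + g ρ) := by
  obtain ⟨p, q, hp, hq, h⟩ := hf
  obtain ⟨p', q', hp', hq', h'⟩ := hg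
  refine ⟨_, _, hp.add hp', hq.add hq', fun ρ => ?_⟩
  beta_reduce
  rw [h, h']
  push_cast
  ring

theorem FPI.neg {f : (Fin m → List K) → ℤ} (hf : FPI m f) : FPI m (fun ρ => - f ρ) := by
  obtain ⟨p, q, hp, hq, h⟩ := hf
  refine ⟨_, _, hq, hp, fun ρ => ?_⟩
  beta_reduce
  rw [h]
  ring

theorem FPI.sub {f g : (Fin m → List K) → ℤ} (hf : FPI m f) (hg : FPI m g) :
    FPI m (fun ρ => f ρ - g ρ) :=
  (hf.add hg.neg).congr fun ρ => sub_eq_add_neg _ _

theorem FPI.mul {f g : (Fin m → List K) → ℤ} (hf : FPI m f) (hg : FPI m g) :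
    FPI m (fun ρ => f ρ * g ρ) := by
  obtain ⟨p, q, hp, hq, h⟩ := hf
  obtain ⟨p', q', hp', hq', h'⟩ := hg
  refine ⟨_, _, (hp.mul hp').add (hq.mul hq'), (hp.mul hq').add (hq.mul hp'), fun ρ => ?_⟩
  beta_reduce
  rw [h, h']
  push_cast
  ring

theorem FPI.ite {b : (Fin m → List K) → Bool} (hb : FPB m b) {f g : (Fin m → List K) → ℤ}
    (hf : FPI m f) (hg : FPI m g) : FPI m (fun ρ => if b ρ then f ρ else g ρ) := by
  obtain ⟨p, q, hp, hq, h⟩ := hf
  obtain ⟨p', q', hp', hq', h'⟩ := hg
  refine ⟨_, _, FPV.ite hb hp hp', FPV.ite hb hq hq', fun ρ => ?_⟩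
  beta_reduce
  cases b ρ
  · simp only [Bool.false_eq_true, if_false, h']
  · simp only [if_true, h]

/-- sums over `i < n` -/
theorem FPI.sum {n : (Fin m → List K) → ℕ} (hn : FPN m n) {f : ℕ → (Fin m → List K) → ℤ}
    (hf : FPI (m + 1) (fun σ => f (σ 0).length (fun i => σ i.succ))) :
    FPI m (fun ρ => ∑ i ∈ Finset.range (n ρ), f i ρ) := by
  obtain ⟨p, q, hp, hq, h⟩ := hf
  have key : ∀ {e : (Fin (m + 1) → List K) → ℕ}, FPV (m + 1) e →
      FPV (m + 1) (fun σ => e (nat0 (σ 0).length (fun i => σ i.succ))) := by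
    intro e he
    obtain ⟨W, c, hW, hc, h⟩ := he
    refine ⟨fun σ => W (nat0 (σ 0).length (fun i => σ i.succ)),
      fun t σ => c t (nat0 (σ 0).length (fun i => σ i.succ)), FPN.nat0 hW, ?_, fun σ => h _⟩
    have h3 : FP (m + 2) (fun σ : Fin (m + 2) → List K =>
        List.replicate (c (σ 0).length (fun i => σ i.succ)) (default : K)) := hc
    have h4 := FP.comp h3 (m := m + 2) (G := Matrix.vecCons (fun σ => σ 0)
      (Matrix.vecCons (fun σ => List.replicate (σ 1).length default)
        (fun i σ => σ i.succ.succ))) (fun i => by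
        refine Fin.cases (FP.var 0) (fun i => ?_) i
        refine Fin.cases (FP.unary (FP.var 1) default) (fun i => ?_) i
        exact FP.var i.succ.succ)
    refine FP.congr h4 fun σ => ?_
    have e : nat0 (σ (Fin.succ 0)).length (fun j : Fin m => σ j.succ.succ) = fun i =>
        (Matrix.vecCons (fun σ : Fin (m + 2) → List K => σ 0)
      (Matrix.vecCons (fun σ => List.replicate (σ 1).length default)
        (fun i σ => σ i.succ.succ)) i.succ) σ := by
      funext i
      refine Fin.cases ?_ (fun i => ?_) i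
      · simp [LATM.nat0]
      · simp [LATM.nat0]
    beta_reduce
    rw [e]
    rfl
  refine ⟨fun ρ => ∑ i ∈ Finset.range (n ρ), p (nat0 i ρ),
    fun ρ => ∑ i ∈ Finset.range (n ρ), q (nat0 i ρ), FPV.sum hn (f := fun i ρ => p (nat0 i ρ))
      (key hp), FPV.sum hn (f := fun i ρ => q (nat0 i ρ)) (key hq), fun ρ => ?_⟩
  push_cast
  rw [← Finset.sum_sub_distrib]
  refine Finset.sum_congr rfl fun i _ => ?_
  have h2 := h (nat0 i ρ)
  simp only [LATM.nat0, Matrix.cons_val_zero, List.length_replicate, Matrix.cons_val_succ] at h2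
  exact h2

theorem FPI.smul {n : (Fin m → List K) → ℕ} (hn : FPN m n) {f : (Fin m → List K) → ℤ}
    (hf : FPI m f) : FPI m (fun ρ => (n ρ : ℤ) * f ρ) := (FPI.ofN hn).mul hf

/-- powers of two with an exponent in unary -/
theorem FPI.pow2 {n : (Fin m → List K) → ℕ} (hn : FPN m n) : FPI m (fun ρ => 2 ^ n ρ) :=
  (FPI.ofV (FPV.pow2 hn)).congr fun ρ => by push_cast; rfl

theorem FPB.leI {f g : (Fin m → List K) → ℤ} (hf : FPI m f) (hg : FPI m g) :
    FPB m (fun ρ => decide (f ρ ≤ g ρ)) := by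
  obtain ⟨p, q, hp, hq, h⟩ := hf
  obtain ⟨p', q', hp', hq', h'⟩ := hg
  refine (FPB.leV (hp.add hq') (hp'.add hq)).congr fun ρ => ?_
  rw [Bool.eq_iff_iff, decide_eq_true_iff, decide_eq_true_iff, h, h']
  omega

theorem FPB.ltI {f g : (Fin m → List K) → ℤ} (hf : FPI m f) (hg : FPI m g) :
    FPB m (fun ρ => decide (f ρ < g ρ)) := by
  obtain ⟨p, q, hp, hq, h⟩ := hf
  obtain ⟨p', q', hp', hq', h'⟩ := hg
  refine (FPB.ltV (hp.add hq') (hp'.add hq)).congr fun ρ => ?_
  rw [Bool.eq_iff_iff, decide_eq_true_iff, decide_eq_true_iff, h, h']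
  omega

theorem FPB.eqI {f g : (Fin m → List K) → ℤ} (hf : FPI m f) (hg : FPI m g) :
    FPB m (fun ρ => decide (f ρ = g ρ)) := by
  obtain ⟨p, q, hp, hq, h⟩ := hf
  obtain ⟨p', q', hp', hq', h'⟩ := hg
  refine (FPB.eqV (hp.add hq') (hp'.add hq)).congr fun ρ => ?_
  rw [Bool.eq_iff_iff, decide_eq_true_iff, decide_eq_true_iff, h, h']
  omega

/-! ### Two's complement -/

/-- the integer written in the word `u` in two's complement, lowest digit first, the last letter
is the sign -/
def ival (u : Word) : ℤ :=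
  (nval (u.take (u.length - 1)) : ℤ) -
    (if u.getD (u.length - 1) false then 2 ^ (u.length - 1) else 0)

theorem ival_nil : ival [] = 0 := by simp [ival, nval_nil]

theorem ival_append (w : Word) (b : Bool) :
    ival (w ++ [b]) = (nval w : ℤ) - (if b then 2 ^ w.length else 0) := by
  unfold ival
  have e : (w ++ [b]).length - 1 = w.length := by simp
  rw [e, List.take_left' rfl, List.getD_append_right _ _ _ _ le_rfl, Nat.sub_self]
  rfl

theorem FPI.ival {A : (Fin m → List K) → Word} (hA : FPW m A) : FPI m (fun ρ => ival (A ρ)) := by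
  refine ((FPI.ofV (FPV.ofW (hA.take (hA.len.sub (FPN.const 1))))).sub
    (FPI.ite (FPW.getD hA (hA.len.sub (FPN.const 1)))
      (FPI.pow2 (hA.len.sub (FPN.const 1))) (FPI.const 0))).congr fun ρ => ?_
  rfl

/-- two's complement: `z` written with `w` letters -/
def bits (w : ℕ) (z : ℤ) : Word := (List.range w).map fun i => decide (z / 2 ^ i % 2 = 1)

theorem length_bits (w : ℕ) (z : ℤ) : (bits w z).length = w := by simp [bits]

theorem bits_succ (w : ℕ) (z : ℤ) : bits (w + 1) z = bits w z ++ [decide (z / 2 ^ w % 2 = 1)] := by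
  simp [bits, List.range_succ]

theorem emod_two_pow_succ (z : ℤ) (w : ℕ) :
    z % 2 ^ (w + 1) = z % 2 ^ w + (if decide (z / 2 ^ w % 2 = 1) then 2 ^ w else 0) := by
  have h0 : (0 : ℤ) < 2 ^ w := by positivity
  have h1 := Int.emod_add_mul_ediv z (2 ^ w)
  have h2 := Int.emod_add_mul_ediv (z / 2 ^ w) 2
  have h3 := Int.emod_nonneg z h0.ne'
  have h4 := Int.emod_lt_of_pos z h0
  have h5 : z = (z % 2 ^ w + 2 ^ w * (z / 2 ^ w % 2)) + 2 ^ (w + 1) * (z / 2 ^ w / 2) := by
    calc z = z % 2 ^ w + 2 ^ w * (z / 2 ^ w) := h1.symm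
      _ = z % 2 ^ w + 2 ^ w * (z / 2 ^ w % 2 + 2 * (z / 2 ^ w / 2)) := by rw [h2]
      _ = _ := by ring
  have h6 : z % 2 ^ (w + 1) = z % 2 ^ w + 2 ^ w * (z / 2 ^ w % 2) := by
    conv_lhs => rw [h5]
    rw [Int.add_mul_emod_self_left]
    rcases Int.emod_two_eq_zero_or_one (z / 2 ^ w) with h | h
    · rw [h, mul_zero, add_zero]
      exact Int.emod_eq_of_lt h3 (by rw [pow_succ]; linarith)
    · rw [h, mul_one]
      exact Int.emod_eq_of_lt (by linarith) (by rw [pow_succ]; linarith)
  rw [h6]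
  rcases Int.emod_two_eq_zero_or_one (z / 2 ^ w) with h | h
  · simp [h]
  · simp [h]

theorem nval_bits (w : ℕ) (z : ℤ) : (nval (bits w z) : ℤ) = z % 2 ^ w := by
  induction w with
  | zero => simp [bits, nval_nil, Int.emod_one]
  | succ w ih =>
    rw [bits_succ, nval_append, emod_two_pow_succ, length_bits]
    push_cast
    rw [ih]
    cases decide (z / 2 ^ w % 2 = 1) <;> simp

theorem ival_bits {w : ℕ} {z : ℤ} (h : -2 ^ w ≤ z) (h' : z < 2 ^ w) :
    ival (bits (w + 1) z) = z := by
  rw [bits_succ, ival_append, nval_bits, length_bits]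
  have h0 := emod_two_pow_succ z w
  rcases le_or_gt 0 z with hz | hz
  · have h1 : z % 2 ^ w = z := Int.emod_eq_of_lt hz h'
    have h2 : z % 2 ^ (w + 1) = z := Int.emod_eq_of_lt hz (by rw [pow_succ]; linarith)
    rw [h1, h2] at h0
    rw [h1]
    split_ifs at h0 ⊢ with h3
    · have : (0 : ℤ) < 2 ^ w := by positivity
      omega
    · omega
  · have h1 : (z + 2 ^ w) % 2 ^ w = z + 2 ^ w := Int.emod_eq_of_lt (by linarith) (by linarith)
    rw [Int.add_emod_right] at h1
    have h2 : (z + 2 ^ (w + 1)) % 2 ^ (w + 1) = z + 2 ^ (w + 1) := Int.emod_eq_of_lt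
      (by rw [pow_succ]; have : (0 : ℤ) < 2 ^ w := by positivity
          linarith) (by linarith)
    rw [Int.add_emod_right] at h2
    rw [h1, h2, pow_succ] at h0
    rw [h1]
    have h3 : (0 : ℤ) < 2 ^ w := by positivity
    split_ifs at h0 ⊢ with h4
    · omega
    · omega

theorem nval_inj {u v : Word} (hl : u.length = v.length) (h : nval u = nval v) : u = v := by
  refine List.ext_getElem hl fun i h1 h2 => ?_
  have := testBit_nval u i
  rw [h, testBit_nval, List.getD_eq_getElem _ _ h1, List.getD_eq_getElem _ _ h2] at this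
  exact this.symm

theorem ival_inj {u v : Word} (hl : u.length = v.length) (h : ival u = ival v) : u = v := by
  rcases List.eq_nil_or_concat u with rfl | ⟨u', b, rfl⟩
  · exact (List.eq_nil_of_length_eq_zero hl.symm).symm
  rcases List.eq_nil_or_concat v with rfl | ⟨v', c, rfl⟩
  · simp at hl
  simp only [List.concat_eq_append] at *
  have hl' : u'.length = v'.length := by simpa using hl
  rw [ival_append, ival_append, ← hl'] at h
  have h1 := nval_lt u'
  have h2 := nval_lt v'
  rw [← hl'] at h2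
  have h1' : (nval u' : ℤ) < 2 ^ u'.length := by exact_mod_cast h1
  have h2' : (nval v' : ℤ) < 2 ^ u'.length := by exact_mod_cast h2
  rcases b with _ | _ <;> rcases c with _ | _
  · simp only [Bool.false_eq_true, if_false, sub_zero, Nat.cast_inj] at h
    rw [nval_inj hl' h]
  · exfalso
    simp only [Bool.false_eq_true, if_false, if_true] at h
    omega
  · exfalso
    simp only [Bool.false_eq_true, if_false, if_true] at h
    omega
  · simp only [if_true] at h
    rw [nval_inj hl' (by omega)]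

/-- every word is the two's complement of its value -/
theorem bits_ival (u : Word) : bits u.length (ival u) = u := by
  rcases List.eq_nil_or_concat u with rfl | ⟨u', b, rfl⟩
  · rfl
  simp only [List.concat_eq_append]
  have h1 : (nval u' : ℤ) < 2 ^ u'.length := by exact_mod_cast nval_lt u'
  have h2 : (0 : ℤ) ≤ nval u' := Int.natCast_nonneg _
  refine ival_inj (by simp [length_bits]) ?_
  have e : (u' ++ [b]).length = u'.length + 1 := by simp
  rw [e]
  refine ival_bits ?_ ?_
  · rw [ival_append]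
    split_ifs <;> linarith
  · rw [ival_append]
    have : (0 : ℤ) < 2 ^ u'.length := by positivity
    split_ifs <;> linarith

theorem ival_bounds (u : Word) : -2 ^ (u.length - 1) ≤ ival u ∧ ival u < 2 ^ (u.length - 1) := by
  rcases List.eq_nil_or_concat u with rfl | ⟨u', b, rfl⟩
  · simp [ival_nil]
  simp only [List.concat_eq_append]
  have h1 : (nval u' : ℤ) < 2 ^ u'.length := by exact_mod_cast nval_lt u'
  have h2 : (0 : ℤ) ≤ nval u' := Int.natCast_nonneg _
  have h3 : (0 : ℤ) < 2 ^ u'.length := by positivity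
  have e : (u' ++ [b]).length - 1 = u'.length := by simp
  rw [e, ival_append]
  split_ifs <;> constructor <;> linarith

end Pool.Agent.LATM
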