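import Pool.Agent.Helper7_PAR.Mach

/-!
# Binary numbers in the calculus `FP`, I: sums of digits

A number is given by a polynomial-time computable family of digits in unary: the digits are
arbitrary natural numbers.
-/

set_option autoImplicit false

namespace Pool.Agent.LATM

open Turing Computability Pool.Agent.UT.Num Pool.Agent.H2XG Pool.Agent.PAR
open Pool.Agent.Helper53_CookLevin (size)

variable {m : ℕ}

/-- the number `e ρ` is the sum of the `c t ρ * 2 ^ t` over `t < W ρ`, where `W` and `c` are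
computed in unary -/
def FPV (m : ℕ) (e : (Fin m → List K) → ℕ) : Prop :=
  ∃ (W : (Fin m → List K) → ℕ) (c : ℕ → (Fin m → List K) → ℕ), FPN m W ∧
    FPN (m + 1) (fun σ => c (σ 0).length (fun i => σ i.succ)) ∧
    ∀ ρ, e ρ = ∑ t ∈ Finset.range (W ρ), c t ρ * 2 ^ t

/-- functions of a number and of words -/
def FPN1 (m : ℕ) (c : ℕ → (Fin m → List K) → ℕ) : Prop :=
  FPN (m + 1) (fun σ => c (σ 0).length (fun i => σ i.succ))

theorem FPN.weak1' {F : (Fin (m + 1) → List K) → ℕ} (hF : FPN (m + 1) F) :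
    FPN (m + 2) (fun ρ => F (Matrix.vecCons (ρ 0) (fun i => ρ i.succ.succ))) :=
  FP.weak1 hF

theorem FPB.weak1' {F : (Fin (m + 1) → List K) → Bool} (hF : FPB (m + 1) F) :
    FPB (m + 2) (fun ρ => F (Matrix.vecCons (ρ 0) (fun i => ρ i.succ.succ))) :=
  FP.weak1 hF

/-- substitution of the first variable -/
theorem FP.sub0 {F : (Fin (m + 1) → List K) → List K} (hF : FP (m + 1) F)
    {G : (Fin m → List K) → List K} (hG : FP m G) :
    FP m (fun ρ => F (Matrix.vecCons (G ρ) ρ)) := FP.letw hG hF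

theorem FPN.sub0 {F : (Fin (m + 1) → List K) → ℕ} (hF : FPN (m + 1) F)
    {G : (Fin m → List K) → List K} (hG : FP m G) :
    FPN m (fun ρ => F (Matrix.vecCons (G ρ) ρ)) := FP.letw hG hF

theorem FPB.sub0 {F : (Fin (m + 1) → List K) → Bool} (hF : FPB (m + 1) F)
    {G : (Fin m → List K) → List K} (hG : FP m G) :
    FPB m (fun ρ => F (Matrix.vecCons (G ρ) ρ)) := FP.letw hG hF

/-- a number is substituted for the number variable -/
theorem FPN.at {c : ℕ → (Fin m → List K) → ℕ}
    (hc : FPN (m + 1) (fun σ => c (σ 0).length (fun i => σ i.succ)))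
    {n : (Fin m → List K) → ℕ} (hn : FPN m n) : FPN m (fun ρ => c (n ρ) ρ) :=
  (FPN.sub0 hc hn).congr fun ρ => by simp

theorem FPB.at {c : ℕ → (Fin m → List K) → Bool}
    (hc : FPB (m + 1) (fun σ => c (σ 0).length (fun i => σ i.succ)))
    {n : (Fin m → List K) → ℕ} (hn : FPN m n) : FPB m (fun ρ => c (n ρ) ρ) :=
  (FPB.sub0 hc hn).congr fun ρ => by simp

/-- one more variable behind the number variable -/
theorem FPN.ins {c : ℕ → (Fin m → List K) → ℕ}
    (hc : FPN (m + 1) (fun σ => c (σ 0).length (fun i => σ i.succ))) :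
    FPN (m + 1 + 1) (fun σ => c (σ 0).length (fun i => σ i.succ.succ)) :=
  (FPN.weak1' hc).congr fun ρ => by simp

theorem FPB.ins {c : ℕ → (Fin m → List K) → Bool}
    (hc : FPB (m + 1) (fun σ => c (σ 0).length (fun i => σ i.succ))) :
    FPB (m + 1 + 1) (fun σ => c (σ 0).length (fun i => σ i.succ.succ)) :=
  (FPB.weak1' hc).congr fun ρ => by simp

/-- the environment with a number as the first variable -/
def nat0 (i : ℕ) (ρ : Fin m → List K) : Fin (m + 1) → List K :=
  Matrix.vecCons (List.replicate i (default : K)) ρ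

theorem FPN.nat0 {F : (Fin (m + 1) → List K) → ℕ} (hF : FPN (m + 1) F) :
    FPN (m + 1) (fun σ => F (nat0 (σ 0).length (fun i => σ i.succ))) :=
  (FPN.sub0 (FPN.weak1' hF) (FP.unary (FP.var 0) default)).congr fun ρ => by
    simp only [LATM.nat0, Matrix.cons_val_zero, Matrix.cons_val_succ]

theorem FPB.nat0 {F : (Fin (m + 1) → List K) → Bool} (hF : FPB (m + 1) F) :
    FPB (m + 1) (fun σ => F (nat0 (σ 0).length (fun i => σ i.succ))) :=
  (FPB.sub0 (FPB.weak1' hF) (FP.unary (FP.var 0) default)).congr fun ρ => by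
    simp only [LATM.nat0, Matrix.cons_val_zero, Matrix.cons_val_succ]

theorem FPV.congr {e e' : (Fin m → List K) → ℕ} (h : FPV m e) (h' : ∀ ρ, e' ρ = e ρ) :
    FPV m e' := by
  have : e' = e := funext h'
  rw [this]
  exact h

theorem FPV.weak {e : (Fin m → List K) → ℕ} (h : FPV m e) :
    FPV (m + 1) (fun σ => e (fun i => σ i.succ)) := by
  obtain ⟨W, c, hW, hc, h⟩ := h
  exact ⟨fun σ => W (fun i => σ i.succ), fun t σ => c t (fun i => σ i.succ), hW.weak,
    FPN.ins hc, fun ρ => h _⟩

/-- a number which is computed in unary -/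
theorem FPV.ofN {e : (Fin m → List K) → ℕ} (h : FPN m e) : FPV m e :=
  ⟨fun _ => 1, fun _ ρ => e ρ, FPN.const 1, h.weak, fun ρ => by simp⟩

theorem FPV.const (n : ℕ) : FPV m (fun _ => n) := FPV.ofN (FPN.const n)

theorem sum_cut {n T : ℕ} (h : n ≤ T) (f : ℕ → ℕ) :
    ∑ t ∈ Finset.range T, (if t < n then f t else 0) = ∑ t ∈ Finset.range n, f t := by
  rw [← Finset.sum_filter]
  refine Finset.sum_congr ?_ fun _ _ => rfl
  ext t
  simp only [Finset.mem_filter, Finset.mem_range]
  omega

theorem sum_cut_mul {n T : ℕ} (h : n ≤ T) (f : ℕ → ℕ) :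
    ∑ t ∈ Finset.range T, (if t < n then f t else 0) * 2 ^ t =
      ∑ t ∈ Finset.range n, f t * 2 ^ t := by
  rw [← sum_cut h]
  refine Finset.sum_congr rfl fun t _ => ?_
  split_ifs <;> simp

theorem FPV.add {e e' : (Fin m → List K) → ℕ} (h : FPV m e) (h' : FPV m e') :
    FPV m (fun ρ => e ρ + e' ρ) := by
  obtain ⟨W, c, hW, hc, h⟩ := h
  obtain ⟨W', c', hW', hc', h'⟩ := h'
  refine ⟨fun ρ => W ρ + W' ρ, fun t ρ => (if decide (t < W ρ) then c t ρ else 0) +
    (if decide (t < W' ρ) then c' t ρ else 0), hW.add hW', ?_, fun ρ => ?_⟩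
  · exact (FPN.ite (FPB.ltN FPN.v0 hW.weak) hc (FPN.const 0)).add
      (FPN.ite (FPB.ltN FPN.v0 hW'.weak) hc' (FPN.const 0))
  · simp only [decide_eq_true_eq, add_mul, Finset.sum_add_distrib]
    rw [sum_cut_mul (by omega), sum_cut_mul (by omega), h, h']

theorem FPV.ite {b : (Fin m → List K) → Bool} (hb : FPB m b) {e e' : (Fin m → List K) → ℕ}
    (h : FPV m e) (h' : FPV m e') : FPV m (fun ρ => if b ρ then e ρ else e' ρ) := by
  obtain ⟨W, c, hW, hc, h⟩ := h
  obtain ⟨W', c', hW', hc', h'⟩ := h'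
  refine ⟨fun ρ => if b ρ then W ρ else W' ρ, fun t ρ => if b ρ then c t ρ else c' t ρ,
    FPN.ite hb hW hW', FPN.ite (FPB.weak hb) hc hc', fun ρ => ?_⟩
  by_cases hb : b ρ = true
  · simp only [hb, if_true, h]
  · simp only [hb, if_false, h', Bool.false_eq_true]

/-- multiplication by a number in unary -/
theorem FPV.smul {n : (Fin m → List K) → ℕ} (hn : FPN m n) {e : (Fin m → List K) → ℕ}
    (h : FPV m e) : FPV m (fun ρ => n ρ * e ρ) := by
  obtain ⟨W, c, hW, hc, h⟩ := h
  refine ⟨W, fun t ρ => n ρ * c t ρ, hW, hn.weak.mul hc, fun ρ => ?_⟩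
  beta_reduce
  rw [h, Finset.mul_sum]
  exact Finset.sum_congr rfl fun _ _ => by ring

/-- multiplication by a power of two -/
theorem FPV.shift {n : (Fin m → List K) → ℕ} (hn : FPN m n) {e : (Fin m → List K) → ℕ}
    (h : FPV m e) : FPV m (fun ρ => 2 ^ n ρ * e ρ) := by
  obtain ⟨W, c, hW, hc, h⟩ := h
  refine ⟨fun ρ => n ρ + W ρ, fun t ρ => if decide (t < n ρ) then 0 else c (t - n ρ) ρ,
    hn.add hW, ?_, fun ρ => ?_⟩
  · refine FPN.ite (FPB.ltN FPN.v0 hn.weak) (FPN.const 0) ?_
    have h1 := FPN.at (m := m + 1) (c := fun t σ => c t (fun i => σ i.succ)) (FPN.ins hc)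
      (n := fun σ => (σ 0).length - n (fun i => σ i.succ)) (FPN.v0.sub hn.weak)
    exact h1
  · beta_reduce
    rw [Finset.sum_range_add, h, Finset.mul_sum]
    have h0 : ∑ x ∈ Finset.range (n ρ), (if decide (x < n ρ) = true then 0
        else c (x - n ρ) ρ) * 2 ^ x = 0 := Finset.sum_eq_zero fun x hx => by
      rw [Finset.mem_range] at hx
      simp [hx]
    rw [h0, zero_add]
    refine Finset.sum_congr rfl fun x _ => ?_
    have h1 : ¬ n ρ + x < n ρ := by omega
    simp only [decide_eq_true_eq, if_neg h1, Nat.add_sub_cancel_left]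
    rw [pow_add]
    ring

theorem FPV.pow2 {n : (Fin m → List K) → ℕ} (hn : FPN m n) : FPV m (fun ρ => 2 ^ n ρ) :=
  (FPV.shift hn (FPV.const 1)).congr fun ρ => by simp

/-- sums -/
theorem FPV.sum {n : (Fin m → List K) → ℕ} (hn : FPN m n) {f : ℕ → (Fin m → List K) → ℕ}
    (hf : FPV (m + 1) (fun σ => f (σ 0).length (fun i => σ i.succ))) :
    FPV m (fun ρ => ∑ i ∈ Finset.range (n ρ), f i ρ) := by
  obtain ⟨W, c, hW, hc, h⟩ := hf
  have hW' := FPN.nat0 hW
  have hT : FPN m (fun ρ => ∑ i ∈ Finset.range (n ρ), W (nat0 i ρ)) :=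
    FPN.sum hn (f := fun i ρ => W (nat0 i ρ)) hW'
  refine ⟨fun ρ => ∑ i ∈ Finset.range (n ρ), W (nat0 i ρ), fun t ρ =>
    ∑ i ∈ Finset.range (n ρ), if decide (t < W (nat0 i ρ)) then c t (nat0 i ρ) else 0,
    hT, ?_, fun ρ => ?_⟩
  · refine FPN.sum (m := m + 1) hn.weak (f := fun i σ => if decide ((σ 0).length <
      W (nat0 i (fun j => σ j.succ))) then c (σ 0).length (nat0 i (fun j => σ j.succ)) else 0) ?_
    -- the variables: `σ 0` the index `i`, `σ 1` the position `t`
    have h1 : FPN (m + 2) (fun σ => W (nat0 (σ 0).length (fun j => σ j.succ.succ))) :=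
      (FPN.weak1' hW').congr fun σ => by simp
    have h2 : FPN (m + 2) (fun σ => c (σ 1).length (nat0 (σ 0).length
        (fun j => σ j.succ.succ))) := by
      -- in `hc` the variable `0` is the position and the variable `1` the index
      have h3 : FP (m + 2) (fun σ : Fin (m + 2) → List K =>
          List.replicate (c (σ 0).length (fun i => σ i.succ)) (default : K)) := hc
      have h4 := FP.comp h3 (m := m + 2) (G := Matrix.vecCons (fun σ => σ 1)
        (Matrix.vecCons (fun σ => List.replicate (σ 0).length default)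
          (fun i σ => σ i.succ.succ))) (fun i => by
          refine Fin.cases (FP.var 1) (fun i => ?_) i
          refine Fin.cases (FP.unary (FP.var 0) default) (fun i => ?_) i
          exact FP.var i.succ.succ)
      refine FP.congr h4 fun σ => ?_
      have e : nat0 (σ 0).length (fun j : Fin m => σ j.succ.succ) = fun i =>
          (Matrix.vecCons (fun σ : Fin (m + 2) → List K => σ 1)
        (Matrix.vecCons (fun σ => List.replicate (σ 0).length default)
          (fun i σ => σ i.succ.succ)) i.succ) σ := by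
        funext i
        refine Fin.cases ?_ (fun i => ?_) i
        · simp [LATM.nat0]
        · simp [LATM.nat0]
      beta_reduce
      rw [e]
      rfl
    exact FPN.ite (FPB.ltN FPN.v1 h1) h2 (FPN.const 0)
  · have h1 : ∀ i ∈ Finset.range (n ρ), f i ρ = ∑ t ∈ Finset.range
        (∑ i ∈ Finset.range (n ρ), W (nat0 i ρ)),
        (if t < W (nat0 i ρ) then c t (nat0 i ρ) else 0) * 2 ^ t := by
      intro i hi
      have h2 := h (nat0 i ρ)
      simp only [LATM.nat0, Matrix.cons_val_zero, List.length_replicate,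
        Matrix.cons_val_succ] at h2
      rw [h2, sum_cut_mul]
      · rfl
      · exact Finset.single_le_sum (f := fun i => W (nat0 i ρ)) (fun _ _ => Nat.zero_le _) hi
    beta_reduce
    rw [Finset.sum_congr rfl h1, Finset.sum_comm]
    refine Finset.sum_congr rfl fun t _ => ?_
    rw [Finset.sum_mul]
    refine Finset.sum_congr rfl fun i _ => ?_
    simp only [decide_eq_true_eq]

theorem FPV.mul {e e' : (Fin m → List K) → ℕ} (h : FPV m e) (h' : FPV m e') :
    FPV m (fun ρ => e ρ * e' ρ) := by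
  obtain ⟨W, c, hW, hc, h⟩ := h
  have h1 := FPV.sum hW (f := fun t ρ => c t ρ * (2 ^ t * e' ρ))
    (FPV.smul hc (FPV.shift FPN.v0 h'.weak))
  refine h1.congr fun ρ => ?_
  rw [h, Finset.sum_mul]
  exact Finset.sum_congr rfl fun _ _ => by ring

/-- the number with the binary digits `w`, lowest digit first -/
def nval (w : Word) : ℕ := ∑ t ∈ Finset.range w.length, (w.getD t false).toNat * 2 ^ t

theorem FPV.ofW {A : (Fin m → List K) → Word} (hA : FPW m A) : FPV m (fun ρ => nval (A ρ)) :=
  ⟨fun ρ => (A ρ).length, fun t ρ => ((A ρ).getD t false).toNat, hA.len,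
    (FPN.ite (FPW.getD hA.weak FPN.v0) (FPN.const 1) (FPN.const 0)).congr fun σ => by
      beta_reduce
      cases (A fun i => σ i.succ).getD (σ 0).length false <;> rfl, fun ρ => rfl⟩

end Pool.Agent.LATM
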